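import Pool.Agent.Helper15.GS.GoalsD

/-! # GS, goal GUB: the uniform bound -/

open Complex Metric Set Filter Topology MeasureTheory
open scoped ContDiff ComplexConjugate ComplexOrder Manifold Matrix

namespace Pool.Agent.Helper49.GS

open Pool.Agent.Helper95.Lin Pool.Agent.Helper16.Abund Pool.Agent.Helper92.Orb
  Pool.Agent.Helper10.SP Pool.Agent.Helper95.RK Pool.Agent.Helper57.HS
  Pool.Agent.Helper15.HS Pool.Agent.Helper15.GS

universe u

/-- The trace of the product of two positive semidefinite matrices is nonnegative. -/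
theorem trace_mul_nonneg {n : ℕ} {A B : Matrix (Fin n) (Fin n) ℂ} (hA : A.PosSemidef)
    (hB : B.PosSemidef) : 0 ≤ (Matrix.trace (A * B)).re := by
  obtain ⟨S, hS⟩ : ∃ S : Matrix (Fin n) (Fin n) ℂ, A = Sᴴ * S := by
    open scoped MatrixOrder in
    exact CStarAlgebra.nonneg_iff_eq_star_mul_self.mp hA.nonneg
  have h0 : Matrix.trace (A * B) = Matrix.trace (S * B * Sᴴ) := by
    rw [hS, Matrix.mul_assoc, Matrix.trace_mul_comm Sᴴ, Matrix.mul_assoc]
  have h1 : (S * B * Sᴴ).PosSemidef := hB.mul_mul_conjTranspose_same S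
  rw [h0]
  exact (Complex.le_def.1 h1.trace_nonneg).1

/-- GUB. -/
theorem gub (hUB : S_UB.{u}) (hGRBC : S_GRBC) : S_GUB.{u} := by
  intro n T G _ R H h D c C hcmp ε Q hε hQ x hx
  obtain ⟨hc, hC, hcmp⟩ := hcmp
  have hRBC : RBC h T := (hGRBC T D.ket.et.isOpen h D.her.posDef D.her.smooth D.gsn).1
  have h1 : (Matrix.trace (h x * (Q x)⁻¹)).re ≤ n / (ε * c) := by
    refine hUB T R Q h (fun x => (ε : ℂ) • H x) hQ.ket D.her hRBC (fun x hx => hQ.eq x hx)
      (ε * c) (by positivity) (fun x hx => ?_) x hx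
    have h2 : (ε : ℂ) • H x - ((ε * c : ℝ) : ℂ) • h x = (ε : ℂ) • (H x - (c : ℂ) • h x) := by
      rw [smul_sub, smul_smul]
      push_cast
      rfl
    rw [h2]
    exact (hcmp x hx).1.smul (by exact_mod_cast hε.le)
  refine ⟨h1, ?_⟩
  have h3 := trace_mul_nonneg (hcmp x hx).2 (hQ.ket.posDef x hx).posSemidef.inv
  rw [Matrix.sub_mul, Matrix.trace_sub, Matrix.smul_mul, Matrix.trace_smul, smul_eq_mul,
    Complex.sub_re, Complex.re_ofReal_mul] at h3
  unfold Bep
  rw [Matrix.trace_smul, smul_eq_mul, Complex.re_ofReal_mul]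
  have h4 : C * (Matrix.trace (h x * (Q x)⁻¹)).re ≤ C * (n / (ε * c)) :=
    mul_le_mul_of_nonneg_left h1 hC.le
  have h5 : (Matrix.trace (H x * (Q x)⁻¹)).re ≤ C * (n / (ε * c)) := by linarith
  have h6 := mul_le_mul_of_nonneg_left h5 hε.le
  refine h6.trans (le_of_eq ?_)
  field_simp

end Pool.Agent.Helper49.GS
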